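import Mathlib
import Pool.Agent.R738.Lens56

set_option autoImplicit false

/-!
# Isospectral non-isometric lens spaces with `n ≡ -1 (mod φ(q)/2)`

For `q = 56` (so `φ(q)/2 = 12`) and every `n ≥ 11` with `n ≡ -1 (mod 12)` there are two
`(2n-1)`-dimensional lens spaces with fundamental group of order `56` which are isospectral and not
isometric. For `n = 11` these are, for instance,
`L(56; 1,1,5,9,9,13,15,15,17,23,25)` and `L(56; 1,1,3,9,13,15,17,17,23,25,25)`.
-/

namespace Pool.Agent.Results.MP_1b0b4e_gt.IsospectralMinusOne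

/-- The matrix of the rotation of the plane by the angle `θ`. -/
noncomputable def rotation (θ : ℝ) : Matrix (Fin 2) (Fin 2) ℝ :=
  !![Real.cos θ, -Real.sin θ; Real.sin θ, Real.cos θ]

/-- The matrix of size `2n`, block diagonal with `n` blocks of size `2`, the `j`-th block being the
rotation by the angle `θ j`. -/
noncomputable def blockRotation {n : ℕ} (θ : Fin n → ℝ) : Matrix (Fin (2 * n)) (Fin (2 * n)) ℝ :=
  (Matrix.blockDiagonal fun j => rotation (θ j)).submatrix finProdFinEquiv.symm finProdFinEquiv.symm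

/-- The group of the lens space `L(q; s)`: the subgroup of `O(2n)` generated by
`(z_1, …, z_n) ↦ (ξ^{s_1} z_1, …, ξ^{s_n} z_n)`, `ξ = exp(2πi/q)`, that is, by the block diagonal
matrix of the rotations by the angles `2π s_j / q`. -/
noncomputable def lensGroup (q : ℕ) {n : ℕ} (s : Fin n → ℕ) :
    Subgroup (Matrix.orthogonalGroup (Fin (2 * n)) ℝ) :=
  Subgroup.closure {g | g.1 = blockRotation fun j => 2 * Real.pi * s j / q}

/-- The dimension of the space of `Γ`-invariant harmonic homogeneous polynomials of degree `k` on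
`ℝ^N`, i.e. the multiplicity of the eigenvalue `k (k + N - 2)` of the Laplacian on the quotient of
the unit sphere by `Γ`. -/
noncomputable def multiplicity {N : ℕ} (Γ : Subgroup (Matrix.orthogonalGroup (Fin N) ℝ))
    (k : ℕ) : ℕ :=
  Module.finrank ℝ ↥(MvPolynomial.homogeneousSubmodule (Fin N) ℝ k ⊓
    LinearMap.ker (∑ i : Fin N,
      (MvPolynomial.pderiv i).toLinearMap ∘ₗ (MvPolynomial.pderiv i).toLinearMap) ⊓
    ⨅ g ∈ Γ, LinearMap.ker ((MvPolynomial.aeval (fun i : Fin N =>
      ∑ j : Fin N, MvPolynomial.C (g.1 i j) * MvPolynomial.X j)).toLinearMap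
        - LinearMap.id))

/-- The two quotients of the sphere have the same Laplace spectrum with multiplicities. -/
def Isospectral {N : ℕ} (Γ₁ Γ₂ : Subgroup (Matrix.orthogonalGroup (Fin N) ℝ)) : Prop :=
  ∀ k : ℕ, multiplicity Γ₁ k = multiplicity Γ₂ k

/-- The two quotients of the sphere are isometric: the groups are conjugate in `O(N)`. -/
def Isometric {N : ℕ} (Γ₁ Γ₂ : Subgroup (Matrix.orthogonalGroup (Fin N) ℝ)) : Prop :=
  ∃ h : Matrix.orthogonalGroup (Fin N) ℝ, ∀ g, g ∈ Γ₁ ↔ h * g * h⁻¹ ∈ Γ₂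

open Pool.Agent.Helper477 Pool.Agent.Helper477.Sph Pool.Agent.Helper477.HarmInv

theorem iso_iff {N : ℕ} (hN : 0 < N) (Γ₁ Γ₂ : Subgroup (Matrix.orthogonalGroup (Fin N) ℝ)) :
    Isospectral Γ₁ Γ₂ ↔ hilb Γ₁ = hilb Γ₂ := by
  have hm : ∀ (Γ : Subgroup (Matrix.orthogonalGroup (Fin N) ℝ)) (k : ℕ), multiplicity Γ k =
      Module.finrank ℝ ↥(MvPolynomial.homogeneousSubmodule (Fin N) ℝ k ⊓ LinearMap.ker (D N) ⊓
        Inv Γ) := fun Γ k => rfl
  constructor
  · intro h
    have key : ∀ k, Module.finrank ℝ ↥(MvPolynomial.homogeneousSubmodule (Fin N) ℝ k ⊓ Inv Γ₁) =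
        Module.finrank ℝ ↥(MvPolynomial.homogeneousSubmodule (Fin N) ℝ k ⊓ Inv Γ₂) := by
      intro k
      induction k using Nat.strong_induction_on with
      | _ k ih =>
        have hk := h k
        rw [hm, hm] at hk
        by_cases hk2 : k < 2
        · rwa [finrank_harmonic_low _ k hk2, finrank_harmonic_low _ k hk2] at hk
        · obtain ⟨m, rfl⟩ : ∃ m, k = m + 2 := ⟨k - 2, by omega⟩
          have h1 := finrank_harmonic hN (Inv Γ₁) (D_mem_Inv Γ₁) (rsq_mul_mem_Inv Γ₁) m
          have h2 := finrank_harmonic hN (Inv Γ₂) (D_mem_Inv Γ₂) (rsq_mul_mem_Inv Γ₂) m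
          have h3 := ih m (by omega)
          omega
    unfold hilb
    congr 1
    funext k
    rw [key k]
  · intro h k
    rw [hm, hm]
    refine isospectral_of_invariants hN Γ₁ Γ₂ (fun k => ?_) k
    have h1 := congrArg (PowerSeries.coeff k) h
    unfold hilb at h1
    rw [PowerSeries.coeff_mk, PowerSeries.coeff_mk] at h1
    exact_mod_cast h1

theorem lensGroup_eq {q : ℕ} [NeZero q] {n : ℕ} (s : Fin n → ZMod q) :
    lensGroup q (fun j => (s j).val) = LG s := by
  have h : {g : Matrix.orthogonalGroup (Fin (2 * n)) ℝ |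
      g.1 = blockRotation fun j => 2 * Real.pi * ((s j).val : ℕ) / q} = {lg s} := by
    ext g
    rw [Set.mem_setOf_eq, Set.mem_singleton_iff]
    constructor
    · intro hg
      exact Subtype.ext hg
    · rintro rfl
      rfl
  rw [lensGroup, h, LG, Subgroup.zpowers_eq_closure]

/-- For every `n ≥ 11` with `n ≡ -1 (mod φ(56)/2)` there are two isospectral, non-isometric lens
spaces `L(56; s)` and `L(56; s')` of dimension `2 n - 1`. -/
theorem result : ∀ n : ℕ, 11 ≤ n → (n : ℤ) ≡ -1 [ZMOD ((Nat.totient 56 / 2 : ℕ) : ℤ)] →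
    ∃ s s' : Fin n → ℕ, (∀ j, Nat.Coprime (s j) 56) ∧ (∀ j, Nat.Coprime (s' j) 56) ∧
      Isospectral (lensGroup 56 s) (lensGroup 56 s') ∧
      ¬ Isometric (lensGroup 56 s) (lensGroup 56 s') := by
  intro n hn hmod
  have htot : Nat.totient 56 / 2 = 12 := by decide +kernel
  rw [htot] at hmod
  have hm : n % 12 = 11 := by
    have h1 : ((n : ℤ) % 12) = (-1) % 12 := hmod
    omega
  obtain ⟨s, s', hs, hs', h1, h2⟩ := Pool.Agent.R738.lens_pair' (n := n)
    (Pool.Agent.R738.cert_mono Pool.Agent.R738.cert56 (show 2 ≤ (n + 13) / 12 by omega))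
    (show n + 13 = (n + 13) / 12 * 12 by omega) (by omega)
  refine ⟨fun j => (s j).val, fun j => (s' j).val, fun j => ?_, fun j => ?_, ?_, ?_⟩
  · rw [← ZMod.isUnit_iff_coprime, ZMod.natCast_zmod_val]
    exact hs j
  · rw [← ZMod.isUnit_iff_coprime, ZMod.natCast_zmod_val]
    exact hs' j
  · rw [lensGroup_eq, lensGroup_eq, iso_iff (by omega)]
    exact h1
  · rw [lensGroup_eq, lensGroup_eq]
    exact h2

end Pool.Agent.Results.MP_1b0b4e_gt.IsospectralMinusOne
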